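import Mathlib
import Pool.Agent.Helper31.AO.Sharp
import Pool.Agent.Helper61.JB.Enum
import Pool.Agent.Helper53.JB.Newt

/-!
# LR (MP_c2aa42_lc, Theorem D4+): products of factors of small local rank, definitions

`AO ρ f` (`Helper31/AO/Defs.lean`): rank at most `ρ` across all partitions of the variables.
`LR q w f`: rank at most `w` across the partitions `(S, complement)` with `|S| ≤ q`.
-/

set_option autoImplicit false

namespace LRH

open MvPolynomial AOR JB

/-- For every set `S` of at most `q` variables: `f (x on S, y off S) = ∑ k < w, A k (x) * B k (y)`. -/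
def LR {n : ℕ} (q w : ℕ) (f : MvPolynomial (Fin n) ℂ) : Prop :=
  ∀ S : Finset (Fin n), S.card ≤ q → ∃ A B : Fin w → MvPolynomial (Fin n) ℂ, ∀ x y : Fin n → ℂ,
    eval (S.piecewise x y) f = ∑ k, eval x (A k) * eval y (B k)

/-- The factors: arbitrary polynomials `F` in `κ` polynomials of degree at most `δ`, of any-order rank
at most `ρ` and of rank at most `w` for the sets of at most `r` variables. -/
def Factors (n r κ w ρ δ : ℕ) : Set (MvPolynomial (Fin n) ℂ) :=
  {f | ∃ (A : Fin κ → MvPolynomial (Fin n) ℂ) (F : MvPolynomial (Fin κ) ℂ),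
    (∀ j, (A j).totalDegree ≤ δ ∧ AO ρ (A j) ∧ LR r w (A j)) ∧ f = aeval A F}

/-- Finite products of factors. -/
noncomputable def Products (n r κ w ρ δ : ℕ) : Submonoid (MvPolynomial (Fin n) ℂ) :=
  Submonoid.closure (Factors n r κ w ρ δ)

/-- The divisors of the nonzero polynomials in products of factors, where no `r + 1` of the products
are algebraically independent. -/
def Circuits (n r κ w ρ δ : ℕ) : Set (MvPolynomial (Fin n) ℂ) :=
  {f | ∃ (m : ℕ) (P : Fin m → MvPolynomial (Fin n) ℂ) (g : MvPolynomial (Fin m) ℂ),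
    (∀ i, P i ∈ Products n r κ w ρ δ) ∧
    (∀ s : Fin (r + 1) ↪ Fin m, ¬ AlgebraicIndependent ℂ fun i => P (s i)) ∧
    aeval P g ≠ 0 ∧ f ∣ aeval P g}

/-- The number of parameters of `r + 1` factors. -/
def par (r κ w : ℕ) : ℕ := (r + 1) * (κ * w)

/-- The hitting set for the Jacobian determinants of the parameters. -/
def H₀ (n r κ w ρ δ : ℕ) : Finset (Fin n → ℤ) :=
  hittingSet n (par r κ w * δ) ((par r κ w).factorial * ρ ^ par r κ w)

/-- The size of the grid. -/
def grid (n r κ w ρ δ d : ℕ) : ℕ := d * ((H₀ n r κ w ρ δ).card + n)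

/-- The hitting set: a multiple of the curve through the points of `H₀`, plus a sum of `r + par r κ w`
vectors `z_j * ∏ l' ≠ l, (w_j - l')`. -/
def hset (n r κ w ρ δ d : ℕ) : Finset (Fin n → ℤ) :=
  (Finset.univ : Finset (Fin (grid n r κ w ρ δ d + 1) ×
    (Fin (r + par r κ w) → Fin (grid n r κ w ρ δ d + 1)) ×
    (Fin (r + par r κ w) → Fin (grid n r κ w ρ δ d + 1)))).image fun c l =>
      ((H₀ n r κ w ρ δ).card.factorial : ℤ) * newt (enum (H₀ n r κ w ρ δ)) (c.1 : ℕ) l +
        ∑ j, ((c.2.1 j : ℕ) : ℤ) *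
          ∏ l' ∈ Finset.univ.erase l, (((c.2.2 j : ℕ) : ℤ) - ((l' : ℕ) : ℤ))

/-! ### The curve -/

/-- `(length)! * newt L`, with integer coefficients. -/
noncomputable def curve {n : ℕ} (L : List (Fin n → ℤ)) (l : Fin n) : Polynomial ℤ :=
  ∑ j ∈ Finset.range L.length, Polynomial.C (((L.length.factorial / j.factorial : ℕ) : ℤ) *
    ∑ i ∈ Finset.range (j + 1), (-1) ^ (j - i) * (j.choose i : ℤ) * (L.getD i 0) l) *
      descPochhammer ℤ j

end LRH
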