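import Mathlib
import Pool.Agent.Helper88.LR.Defs

/-!
# LR-5: the size of the hitting set

`AOR.card_simple`, `Finset.card_image_le`. With `M = par r κ w`, `X = n + ρ + δ + d + 2`:
`|H₀| ≤ C (n + 1)^4 (M δ + 1)^2 (M! ρ^M + 1)^15 ≤ C' X^(15 M + 6)` (`M δ + 1 ≤ (M + 1) X`, `M! ρ^M + 1 ≤ (M! + 1) X^M`),
`grid + 1 ≤ d (|H₀| + n) + 1 ≤ (C' + 2) X^(15 M + 8)`, `|hset| ≤ (grid + 1)^(2 (r + M) + 1)`.
-/

set_option autoImplicit false

namespace LRH

open AOR JB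

theorem card_H₀_le (r κ w : ℕ) : ∃ C : ℕ, ∀ n ρ δ : ℕ,
    (H₀ n r κ w ρ δ).card ≤ C * (n + ρ + δ + 2) ^ (15 * par r κ w + 6) := by
  obtain ⟨C, hC⟩ := card_simple
  set M := par r κ w with hM
  refine ⟨C * (M + 1) ^ 2 * (M.factorial + 1) ^ 15, fun n ρ δ => ?_⟩
  set X := n + ρ + δ + 2 with hX
  have h1 : n + 1 ≤ X := by omega
  have h2 : M * δ + 1 ≤ (M + 1) * X := by
    have : δ ≤ X := by omega
    calc M * δ + 1 ≤ M * X + 1 * X := by
          have h3 : M * δ ≤ M * X := Nat.mul_le_mul_left M this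
          omega
      _ = (M + 1) * X := by ring
  have h3 : M.factorial * ρ ^ M + 1 ≤ (M.factorial + 1) * X ^ M := by
    have h4 : ρ ^ M ≤ X ^ M := Nat.pow_le_pow_left (by omega) M
    have h5 : 1 ≤ X ^ M := Nat.one_le_pow _ _ (by omega)
    calc M.factorial * ρ ^ M + 1 ≤ M.factorial * X ^ M + X ^ M :=
          Nat.add_le_add (Nat.mul_le_mul_left _ h4) h5
      _ = (M.factorial + 1) * X ^ M := by ring
  have h0 := hC n (M * δ) (M.factorial * ρ ^ M)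
  change (hittingSet n (M * δ) (M.factorial * ρ ^ M)).card ≤ _
  refine h0.trans ?_
  have k1 : (n + 1) ^ 4 ≤ X ^ 4 := Nat.pow_le_pow_left h1 4
  have k2 : (M * δ + 1) ^ 2 ≤ ((M + 1) * X) ^ 2 := Nat.pow_le_pow_left h2 2
  have k3 : (M.factorial * ρ ^ M + 1) ^ 15 ≤ ((M.factorial + 1) * X ^ M) ^ 15 :=
    Nat.pow_le_pow_left h3 15
  refine (Nat.mul_le_mul (Nat.mul_le_mul (Nat.mul_le_mul_left C k1) k2) k3).trans (le_of_eq ?_)
  have e1 : X ^ (15 * M + 6) = X ^ 4 * X ^ 2 * (X ^ M) ^ 15 := by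
    rw [← pow_mul, ← pow_add, ← pow_add]
    congr 1
    ring
  rw [e1, mul_pow, mul_pow]
  generalize (M.factorial + 1) ^ 15 = a
  generalize (X ^ M) ^ 15 = b
  ring

theorem grid_le (r κ w : ℕ) : ∃ C : ℕ, ∀ n ρ δ d : ℕ,
    grid n r κ w ρ δ d + 1 ≤ C * (n + ρ + δ + d + 2) ^ (15 * par r κ w + 8) := by
  obtain ⟨C, hC⟩ := card_H₀_le r κ w
  set M := par r κ w with hM
  refine ⟨C + 2, fun n ρ δ d => ?_⟩
  set X := n + ρ + δ + d + 2 with hX
  have hX1 : 1 ≤ X := by omega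
  have h1 : (H₀ n r κ w ρ δ).card ≤ C * X ^ (15 * M + 6) := by
    refine (hC n ρ δ).trans ?_
    have h2 : n + ρ + δ + 2 ≤ X := by omega
    gcongr
  have h3 : d ≤ X := by omega
  have h4 : n ≤ X ^ (15 * M + 6) := by
    calc n ≤ X ^ 1 := by rw [pow_one]; omega
      _ ≤ X ^ (15 * M + 6) := Nat.pow_le_pow_right hX1 (by omega)
  have h5 : 1 ≤ X * X ^ (15 * M + 6) := Nat.one_le_iff_ne_zero.2 (by positivity)
  have h6 : X * X ^ (15 * M + 6) ≤ X ^ (15 * M + 8) := by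
    rw [← pow_succ']
    exact Nat.pow_le_pow_right hX1 (by omega)
  change d * ((H₀ n r κ w ρ δ).card + n) + 1 ≤ _
  generalize X ^ (15 * M + 8) = Z at h6 ⊢
  generalize X ^ (15 * M + 6) = Y at h1 h4 h5 h6
  have h7 : d * ((H₀ n r κ w ρ δ).card + n) ≤ X * (C * Y + Y) :=
    Nat.mul_le_mul h3 (Nat.add_le_add h1 h4)
  have h8 : (C + 2) * (X * Y) ≤ (C + 2) * Z := Nat.mul_le_mul_left _ h6
  have h9 : X * (C * Y + Y) + X * Y = (C + 2) * (X * Y) := by ring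
  omega

theorem card_hset_le' (n r κ w ρ δ d : ℕ) : (hset n r κ w ρ δ d).card ≤
    (grid n r κ w ρ δ d + 1) ^ (2 * (r + par r κ w) + 1) := by
  unfold hset
  refine Finset.card_image_le.trans ?_
  rw [Finset.card_univ, Fintype.card_prod, Fintype.card_prod, Fintype.card_fun, Fintype.card_fin,
    Fintype.card_fin]
  apply le_of_eq
  ring

theorem card_hset_le (r κ w : ℕ) : ∃ C : ℕ, ∀ n ρ δ d : ℕ, (hset n r κ w ρ δ d).card ≤
    C * (n + ρ + δ + d + 2) ^ ((15 * par r κ w + 8) * (2 * (r + par r κ w) + 1)) := by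
  obtain ⟨C, hC⟩ := grid_le r κ w
  refine ⟨C ^ (2 * (r + par r κ w) + 1), fun n ρ δ d => ?_⟩
  refine (card_hset_le' n r κ w ρ δ d).trans ?_
  refine (Nat.pow_le_pow_left (hC n ρ δ d) _).trans ?_
  rw [mul_pow, ← pow_mul]

end LRH
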