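import Mathlib
import Pool.Agent.Helper88.LR.Size

/-!
# LR-6: the coordinates of the points have polynomial bit length

`a l = s! * newt (enum H₀) t l + ∑ j, z j * ∏ l' ≠ l, (w j - l')`, `s = |H₀|`, `t, z j, w j ≤ b = grid`.
`JB.newt_le` with `M = (MM δ + 2)^E₀`, `MM = par r κ w`, `E₀ = C₀ (n+1)^4 (MM! ρ^MM + 1)^9` (`AOR.abs_simple`, `JB.mem_enum`):
`|newt| ≤ (t + 1)^s * 2^s * (s * M)`, and `s! ≤ s^s ≤ 2^(s*s)`, `(t + 1)^s ≤ 2^(b s)` (`t + 1 ≤ 2^t`), `s ≤ 2^s`,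
`M ≤ 2^((MM δ + 1) E₀)`; the second term is at most `(r + MM) * b * (b + n)^n ≤ 2^((r + MM) + b + (b + n) n)`
(`Pool.Agent.Helper62.VT.G_bound` in `Helper62/VT/Separable.lean` is the same bound; or prove it again). The sum is at most `2 ^` (sum of
all the exponents + 1). With `X = n + ρ + δ + d + 2`, `card_H₀_le`, `grid_le`: all exponents are at most `C X ^ (30 MM + 14)`
(`s * s ≤ C X^(30 MM + 12)`, `b s ≤ C X^(30 MM + 14)`, `(MM δ + 1) E₀ ≤ C X^(9 MM + 5)`, `(b + n) n ≤ C X^(15 MM + 9)`).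
-/

set_option autoImplicit false

namespace LRH

open AOR JB

private theorem succ_le_two_pow (x : ℕ) : x + 1 ≤ 2 ^ x := Nat.lt_two_pow_self

private theorem first_nat {t s b D E0 M : ℕ} (ht : t ≤ b) (hM : M = (D + 2) ^ E0) :
    s.factorial * ((t + 1) ^ s * 2 ^ s * (s * M)) ≤
      2 ^ (s * s + (b * s + s + s + (D + 1) * E0)) := by
  have h0 : s.factorial ≤ 2 ^ (s * s) := by
    calc s.factorial ≤ s ^ s := Nat.factorial_le_pow s
      _ ≤ (2 ^ s) ^ s := Nat.pow_le_pow_left (Nat.lt_two_pow_self).le _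
      _ = 2 ^ (s * s) := by rw [← pow_mul]
  have h1 : (t + 1) ^ s ≤ 2 ^ (b * s) := by
    calc (t + 1) ^ s ≤ (2 ^ t) ^ s := Nat.pow_le_pow_left (succ_le_two_pow t) _
      _ = 2 ^ (t * s) := by rw [← pow_mul]
      _ ≤ 2 ^ (b * s) := Nat.pow_le_pow_right (by norm_num) (Nat.mul_le_mul_right _ ht)
  have h2 : s ≤ 2 ^ s := (Nat.lt_two_pow_self).le
  have h3 : M ≤ 2 ^ ((D + 1) * E0) := by
    rw [hM]
    calc (D + 2) ^ E0 ≤ (2 ^ (D + 1)) ^ E0 := Nat.pow_le_pow_left (succ_le_two_pow (D + 1)) _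
      _ = 2 ^ ((D + 1) * E0) := by rw [← pow_mul]
  calc s.factorial * ((t + 1) ^ s * 2 ^ s * (s * M)) ≤
        2 ^ (s * s) * (2 ^ (b * s) * 2 ^ s * (2 ^ s * 2 ^ ((D + 1) * E0))) :=
        Nat.mul_le_mul h0 (Nat.mul_le_mul (Nat.mul_le_mul h1 le_rfl) (Nat.mul_le_mul h2 h3))
    _ = 2 ^ (s * s + (b * s + s + s + (D + 1) * E0)) := by
        rw [pow_add, pow_add, pow_add, pow_add]
        ring

private theorem second_nat (K b n : ℕ) : K * b * (b + n) ^ n ≤ 2 ^ (K + b + (b + n) * n) := by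
  have h1 : (b + n) ^ n ≤ 2 ^ ((b + n) * n) := by
    calc (b + n) ^ n ≤ (2 ^ (b + n)) ^ n := Nat.pow_le_pow_left (Nat.lt_two_pow_self).le _
      _ = 2 ^ ((b + n) * n) := by rw [← pow_mul]
  calc K * b * (b + n) ^ n ≤ 2 ^ K * 2 ^ b * 2 ^ ((b + n) * n) :=
        Nat.mul_le_mul (Nat.mul_le_mul (Nat.lt_two_pow_self).le (Nat.lt_two_pow_self).le) h1
    _ = 2 ^ (K + b + (b + n) * n) := by rw [pow_add, pow_add]

private theorem two_pow_sum2 (a b : ℕ) : 2 ^ a + 2 ^ b ≤ 2 ^ (a + b + 1) := by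
  have h1 : 2 ^ a ≤ 2 ^ (a + b) := Nat.pow_le_pow_right (by norm_num) (by omega)
  have h2 : 2 ^ b ≤ 2 ^ (a + b) := Nat.pow_le_pow_right (by norm_num) (by omega)
  have h4 : 2 ^ (a + b + 1) = 2 * 2 ^ (a + b) := by
    rw [pow_succ]
    ring
  omega

private theorem gsum_le (n K b : ℕ) (z w : Fin K → Fin (b + 1)) (l : Fin n) :
    |∑ j, ((z j : ℕ) : ℤ) * ∏ l' ∈ Finset.univ.erase l, (((w j : ℕ) : ℤ) - ((l' : ℕ) : ℤ))| ≤
      ((K * b * (b + n) ^ n : ℕ) : ℤ) := by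
  have hle : ∀ x : Fin (b + 1), ((x : ℕ) : ℤ) ≤ b := fun x => by
    exact_mod_cast Nat.lt_succ_iff.1 x.2
  have h0 : ∀ x : Fin (b + 1), (0 : ℤ) ≤ ((x : ℕ) : ℤ) := fun x => by positivity
  refine (Finset.abs_sum_le_sum_abs _ _).trans ?_
  refine (Finset.sum_le_card_nsmul _ _ ((b : ℤ) * ((b : ℤ) + n) ^ n) ?_).trans ?_
  · intro j _
    rw [abs_mul, abs_of_nonneg (h0 (z j))]
    refine mul_le_mul (hle _) ?_ (abs_nonneg _) (by positivity)
    rw [Finset.abs_prod]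
    refine (Finset.prod_le_prod (fun _ _ => abs_nonneg _)
      (g := fun _ => (b : ℤ) + n) ?_).trans ?_
    · intro l' _
      have h1 := hle (w j)
      have h2 := h0 (w j)
      have h3 : ((l' : ℕ) : ℤ) ≤ n := by exact_mod_cast l'.2.le
      have h4 : (0 : ℤ) ≤ ((l' : ℕ) : ℤ) := by positivity
      rw [abs_le]
      constructor
      · linarith
      · have h5 : (0 : ℤ) ≤ n := by positivity
        linarith
    · rw [Finset.prod_const, Finset.card_erase_of_mem (Finset.mem_univ l), Finset.card_univ,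
        Fintype.card_fin]
      have hn : 0 < n := l.pos
      have h1 : (1 : ℤ) ≤ (b : ℤ) + n := by
        have : (1 : ℤ) ≤ n := by exact_mod_cast hn
        have h2 : (0 : ℤ) ≤ b := by positivity
        linarith
      exact pow_le_pow_right₀ h1 (by omega)
  · rw [Finset.card_univ, Fintype.card_fin, nsmul_eq_mul]
    push_cast
    exact le_of_eq (by ring)

private theorem expo_le {n ρ δ d r M C0 C1 C2 s b : ℕ}
    (hs : s ≤ C1 * (n + ρ + δ + 2) ^ (15 * M + 6))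
    (hb : b + 1 ≤ C2 * (n + ρ + δ + d + 2) ^ (15 * M + 8)) :
    (s * s + (b * s + s + s + (M * δ + 1) *
      (C0 * (n + 1) ^ 4 * (M.factorial * ρ ^ M + 1) ^ 9))) +
      ((r + M) + b + (b + n) * n) + 1 ≤
    (C1 ^ 2 + (C1 * C2 + 2 * C1 + (M + 1) * C0 * (M.factorial + 1) ^ 9) +
      ((r + M) + C2 + (C2 + 1)) + 1) * (n + ρ + δ + d + 2) ^ (30 * M + 14) := by
  have hs' : s ≤ C1 * (n + ρ + δ + d + 2) ^ (15 * M + 6) :=
    hs.trans (Nat.mul_le_mul le_rfl (Nat.pow_le_pow_left (by omega) _))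
  have hn : n ≤ n + ρ + δ + d + 2 := by omega
  have hn1 : n + 1 ≤ n + ρ + δ + d + 2 := by omega
  have hδ : δ ≤ n + ρ + δ + d + 2 := by omega
  have hρ : ρ ≤ n + ρ + δ + d + 2 := by omega
  have hX1 : 1 ≤ n + ρ + δ + d + 2 := by omega
  have hb' : b ≤ C2 * (n + ρ + δ + d + 2) ^ (15 * M + 8) := by omega
  clear hs hb
  generalize n + ρ + δ + d + 2 = X at *
  have hpow : ∀ {e : ℕ}, e ≤ 30 * M + 14 → X ^ e ≤ X ^ (30 * M + 14) :=
    fun h => Nat.pow_le_pow_right hX1 h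
  have e1 : s * s ≤ C1 ^ 2 * X ^ (30 * M + 14) := by
    calc s * s ≤ (C1 * X ^ (15 * M + 6)) * (C1 * X ^ (15 * M + 6)) := Nat.mul_le_mul hs' hs'
      _ = C1 ^ 2 * X ^ (30 * M + 12) := by ring
      _ ≤ _ := Nat.mul_le_mul le_rfl (hpow (by omega))
  have e2 : b * s ≤ C1 * C2 * X ^ (30 * M + 14) := by
    calc b * s ≤ (C2 * X ^ (15 * M + 8)) * (C1 * X ^ (15 * M + 6)) := Nat.mul_le_mul hb' hs'
      _ = C1 * C2 * X ^ (30 * M + 14) := by ring
  have e3 : s ≤ C1 * X ^ (30 * M + 14) := hs'.trans (Nat.mul_le_mul le_rfl (hpow (by omega)))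
  have e4 : (M * δ + 1) * (C0 * (n + 1) ^ 4 * (M.factorial * ρ ^ M + 1) ^ 9) ≤
      (M + 1) * C0 * (M.factorial + 1) ^ 9 * X ^ (30 * M + 14) := by
    have h1 : M * δ + 1 ≤ (M + 1) * X := by
      calc M * δ + 1 ≤ M * X + X := Nat.add_le_add (Nat.mul_le_mul le_rfl hδ) hX1
        _ = (M + 1) * X := by ring
    have h2 : M.factorial * ρ ^ M + 1 ≤ (M.factorial + 1) * X ^ M := by
      have h3 : ρ ^ M ≤ X ^ M := Nat.pow_le_pow_left hρ M
      have h4 : 1 ≤ X ^ M := Nat.one_le_pow _ _ hX1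
      calc M.factorial * ρ ^ M + 1 ≤ M.factorial * X ^ M + X ^ M :=
            Nat.add_le_add (Nat.mul_le_mul le_rfl h3) h4
        _ = (M.factorial + 1) * X ^ M := by ring
    calc (M * δ + 1) * (C0 * (n + 1) ^ 4 * (M.factorial * ρ ^ M + 1) ^ 9)
        ≤ ((M + 1) * X) * (C0 * X ^ 4 * ((M.factorial + 1) * X ^ M) ^ 9) :=
          Nat.mul_le_mul h1 (Nat.mul_le_mul (Nat.mul_le_mul le_rfl (Nat.pow_le_pow_left hn1 4))
            (Nat.pow_le_pow_left h2 9))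
      _ = (M + 1) * C0 * (M.factorial + 1) ^ 9 * X ^ (9 * M + 5) := by
          rw [mul_pow, ← pow_mul, mul_comm M 9, pow_add]
          ring
      _ ≤ _ := Nat.mul_le_mul le_rfl (hpow (by omega))
  have e5 : r + M ≤ (r + M) * X ^ (30 * M + 14) :=
    Nat.le_mul_of_pos_right _ (Nat.pow_pos (by omega))
  have e6 : b ≤ C2 * X ^ (30 * M + 14) := hb'.trans (Nat.mul_le_mul le_rfl (hpow (by omega)))
  have e7 : (b + n) * n ≤ (C2 + 1) * X ^ (30 * M + 14) := by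
    calc (b + n) * n ≤ (C2 * X ^ (15 * M + 8) + X ^ (15 * M + 8)) * X := by
          refine Nat.mul_le_mul (Nat.add_le_add hb' (hn.trans ?_)) hn
          exact Nat.le_self_pow (by omega) X
      _ = (C2 + 1) * X ^ (15 * M + 9) := by ring
      _ ≤ _ := Nat.mul_le_mul le_rfl (hpow (by omega))
  have e8 : 1 ≤ X ^ (30 * M + 14) := Nat.one_le_pow _ _ hX1
  generalize X ^ (30 * M + 14) = Y at e1 e2 e3 e4 e5 e6 e7 e8 ⊢
  generalize (M + 1) * C0 * (M.factorial + 1) ^ 9 = Z at e4 ⊢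
  calc _ ≤ (C1 ^ 2 * Y + (C1 * C2 * Y + C1 * Y + C1 * Y + Z * Y)) +
        ((r + M) * Y + C2 * Y + (C2 + 1) * Y) + Y :=
        Nat.add_le_add (Nat.add_le_add (Nat.add_le_add e1 (Nat.add_le_add (Nat.add_le_add
          (Nat.add_le_add e2 e3) e3) e4)) (Nat.add_le_add (Nat.add_le_add e5 e6) e7)) e8
    _ = _ := by ring

theorem abs_hset_le (r κ w : ℕ) : ∃ C : ℕ, ∀ n ρ δ d : ℕ, ∀ a ∈ hset n r κ w ρ δ d, ∀ i,
    |a i| ≤ ((2 ^ (C * (n + ρ + δ + d + 2) ^ (30 * par r κ w + 14)) : ℕ) : ℤ) := by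
  obtain ⟨C0, hC0⟩ := abs_simple
  obtain ⟨C1, hC1⟩ := card_H₀_le r κ w
  obtain ⟨C2, hC2⟩ := grid_le r κ w
  refine ⟨C1 ^ 2 + (C1 * C2 + 2 * C1 + (par r κ w + 1) * C0 *
      ((par r κ w).factorial + 1) ^ 9) + ((r + par r κ w) + C2 + (C2 + 1)) + 1,
    fun n ρ δ d a ha i => ?_⟩
  obtain ⟨c, -, rfl⟩ := Finset.mem_image.1 ha
  have hex := expo_le (C0 := C0) (r := r) (hC1 n ρ δ) (hC2 n ρ δ d)
  have hL : (enum (H₀ n r κ w ρ δ)).length = (H₀ n r κ w ρ δ).card := length_enum _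
  have ht : ((c.1 : ℕ)) ≤ grid n r κ w ρ δ d := Nat.lt_succ_iff.1 c.1.2
  have b1 : |((H₀ n r κ w ρ δ).card.factorial : ℤ) * newt (enum (H₀ n r κ w ρ δ)) (c.1 : ℕ) i| ≤
      ((2 ^ ((H₀ n r κ w ρ δ).card * (H₀ n r κ w ρ δ).card + (grid n r κ w ρ δ d *
        (H₀ n r κ w ρ δ).card + (H₀ n r κ w ρ δ).card + (H₀ n r κ w ρ δ).card +
        (par r κ w * δ + 1) * (C0 * (n + 1) ^ 4 *
          ((par r κ w).factorial * ρ ^ par r κ w + 1) ^ 9))) : ℕ) : ℤ) := by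
    have h1 := newt_le (enum (H₀ n r κ w ρ δ)) (c.1 : ℕ) ((par r κ w * δ + 2) ^
      (C0 * (n + 1) ^ 4 * ((par r κ w).factorial * ρ ^ par r κ w + 1) ^ 9))
      (fun a ha l => hC0 n (par r κ w * δ) ((par r κ w).factorial * ρ ^ par r κ w) a
        (mem_enum.1 ha) l) i
    rw [hL] at h1
    rw [abs_mul, Nat.abs_cast]
    refine (mul_le_mul_of_nonneg_left h1 (Int.natCast_nonneg _)).trans ?_
    have h2 := first_nat (s := (H₀ n r κ w ρ δ).card) (D := par r κ w * δ)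
      (E0 := C0 * (n + 1) ^ 4 * ((par r κ w).factorial * ρ ^ par r κ w + 1) ^ 9) ht rfl
    exact_mod_cast h2
  have b2 := (gsum_le n (r + par r κ w) (grid n r κ w ρ δ d) c.2.1 c.2.2 i).trans
    (Int.ofNat_le.2 (second_nat (r + par r κ w) (grid n r κ w ρ δ d) n))
  refine (abs_add_le _ _).trans ((add_le_add b1 b2).trans ?_)
  refine le_trans ?_ (Int.ofNat_le.2 ((two_pow_sum2 _ _).trans
    (Nat.pow_le_pow_right (by norm_num : 0 < 2) hex)))
  push_cast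
  exact le_rfl

end LRH
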