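import Mathlib
import Pool.Agent.Helper88.LR.Defs

/-!
# LR-1: the curve with integer coefficients

`curve L l` has degree at most `L.length`; at a natural number `z` its value is `(L.length)! * newt L z l`:
`(descPochhammer ℤ j).eval (z : ℤ) = z.descFactorial j = j ! * z.choose j` (`descPochhammer_eval_eq_descFactorial`,
`Nat.descFactorial_eq_factorial_mul_choose`) and `(N ! / j !) * j ! = N !` for `j ≤ N` (`Nat.factorial_dvd_factorial`,
`Nat.div_mul_cancel`). `curve_point`: `JB.exists_getD`, `JB.newt_apply`, `JB.length_enum`.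
-/

set_option autoImplicit false

namespace LRH

open MvPolynomial AOR JB

theorem curve_natDegree {n : ℕ} (L : List (Fin n → ℤ)) (l : Fin n) :
    (curve L l).natDegree ≤ L.length := by
  unfold curve
  refine Polynomial.natDegree_sum_le_of_forall_le _ _ fun j hj => ?_
  refine (Polynomial.natDegree_C_mul_le _ _).trans ?_
  rw [descPochhammer_natDegree]
  exact (Finset.mem_range.mp hj).le

theorem curve_eval {n : ℕ} (L : List (Fin n → ℤ)) (l : Fin n) (z : ℕ) :
    (curve L l).eval (z : ℤ) = (L.length.factorial : ℤ) * newt L z l := by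
  unfold curve newt
  rw [Polynomial.eval_finsetSum, Finset.mul_sum]
  refine Finset.sum_congr rfl fun j hj => ?_
  rw [Polynomial.eval_mul, Polynomial.eval_C, descPochhammer_eval_eq_descFactorial,
    Nat.descFactorial_eq_factorial_mul_choose]
  have h : ((L.length.factorial / j.factorial : ℕ) : ℤ) * (j.factorial : ℤ) =
      L.length.factorial := by
    exact_mod_cast Nat.div_mul_cancel
      (Nat.factorial_dvd_factorial (Finset.mem_range.1 hj).le)
  rw [← h]
  push_cast
  ring

theorem curve_point {n : ℕ} {H : Finset (Fin n → ℤ)} {x : Fin n → ℤ} (hx : x ∈ H) :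
    ∃ z : ℕ, ∀ l, (curve (enum H) l).eval (z : ℤ) = (H.card.factorial : ℤ) * x l := by
  obtain ⟨k, hk, h⟩ := exists_getD hx
  refine ⟨k, fun l => ?_⟩
  rw [curve_eval, length_enum, newt_apply _ _ (by rw [length_enum]; exact hk), h]

end LRH
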