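import Mathlib
import Pool.Agent.Helper62.VT.Gsparse

/-!
# LR-2: independence from a nonvanishing Jacobian determinant at a point of a curve

`spec n M ε : x l ↦ ε_l (X none) + G n M z w l` (`Helper62/VT/Gen.lean`). Put `p l = aeval τ (ε l)`. The homomorphism
`θ : X none ↦ C τ`, `z j ↦ C (kap n (e j))⁻¹ * (X j - C (p (e j)))`, `w j ↦ C (e j)` for `j < t`, `z j, w j ↦ 0` for
`t ≤ j < M`, satisfies `θ (spec n M ε (X l)) = sp e p (X l)` (`sp` of `Helper28/VT/W1.lean`; compare `chiG`, `chiG_spec_X`,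
`chiG_spec` in `Helper62/VT/Gsparse.lean`, where the same computation is done with `K` further blocks instead of the curve),
so `θ ∘ spec = sp e p`. By `algInd_of_jac` (`Helper93/D4/M2.lean`) the `sp e p (c i)` are algebraically independent
(`pderiv_sp`, `eval_sp` as in `algInd_of_minor`), hence also the `spec n M ε (c i)`.
-/

set_option autoImplicit false

namespace LRH

open MvPolynomial
open Pool.Agent.Helper62.VT (spec)
open Pool.Agent.Helper28.D4 (G)
open Pool.Agent.Helper28.VT (kap kap_ne sp sp_X_mem sp_X_notMem pderiv_sp)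

/-- The specialisation of the parameters: the curve is taken at the point `τ`, the blocks `j < t`
give the free variables, the other blocks vanish. -/
noncomputable def chiC {n M t : ℕ} (p : Fin n → ℂ) (e : Fin t → Fin n) (τ : ℂ) :
    MvPolynomial (Option (Fin M ⊕ Fin M)) ℂ →ₐ[ℂ] MvPolynomial (Fin t) ℂ :=
  aeval fun o => o.elim (C τ) (Sum.elim
    (fun j : Fin M => if h : (j : ℕ) < t then
      C (kap n (e ⟨j, h⟩))⁻¹ * (X ⟨j, h⟩ - C (p (e ⟨j, h⟩))) else 0)
    (fun j : Fin M => if h : (j : ℕ) < t then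
      C (((e ⟨j, h⟩ : Fin n) : ℕ) : ℂ) else 0))

theorem chiC_curve {n M t : ℕ} (p : Fin n → ℂ) (e : Fin t → Fin n) (τ : ℂ) (q : Polynomial ℤ) :
    chiC (M := M) p e τ (Polynomial.aeval (X none) q) = C (Polynomial.aeval τ q) := by
  have h0 : chiC (M := M) p e τ (X none) = C τ := by rw [chiC, aeval_X]; rfl
  have h1 := Polynomial.hom_eval₂ q (algebraMap ℤ (MvPolynomial (Option (Fin M ⊕ Fin M)) ℂ))
    (chiC (M := M) p e τ).toRingHom (X none)
  have h2 := Polynomial.hom_eval₂ q (algebraMap ℤ ℂ) (C : ℂ →+* MvPolynomial (Fin t) ℂ) τ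
  rw [Polynomial.aeval_def, Polynomial.aeval_def]
  refine Eq.trans h1 (Eq.trans ?_ h2.symm)
  have h3 : (chiC (M := M) p e τ).toRingHom (X none) = C τ := h0
  rw [h3]
  congr 1
  exact RingHom.ext_int _ _

theorem chiC_spec_X {n M t : ℕ} (ht : t ≤ M) (ε : Fin n → Polynomial ℤ) (e : Fin t → Fin n)
    (he : Function.Injective e) (τ : ℂ) (l : Fin n) :
    chiC (M := M) (fun l => Polynomial.aeval τ (ε l)) e τ (spec n M ε (X l)) =
      sp e (fun l => Polynomial.aeval τ (ε l)) (X l) := by
  classical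
  set p : Fin n → ℂ := fun l => Polynomial.aeval τ (ε l) with hp
  rw [spec, aeval_X, map_add, chiC_curve]
  have h1 := Pool.Agent.Helper28.D4.map_G (chiC (M := M) p e τ).toRingHom (n := n)
    (fun j : Fin M => MvPolynomial.X (some (Sum.inl j)))
    (fun j => MvPolynomial.X (some (Sum.inr j))) l
  simp only [AlgHom.toRingHom_eq_coe, RingHom.coe_coe] at h1
  rw [h1]
  have h3 : ∀ j : Fin M, chiC (M := M) p e τ (X (some (Sum.inl j))) =
      if h : (j : ℕ) < t then
      C (kap n (e ⟨j, h⟩))⁻¹ * (X ⟨j, h⟩ - C (p (e ⟨j, h⟩))) else 0 := by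
    intro j; rw [chiC, aeval_X]; rfl
  have h4 : ∀ j : Fin M, chiC (M := M) p e τ (X (some (Sum.inr j))) =
      if h : (j : ℕ) < t then C (((e ⟨j, h⟩ : Fin n) : ℕ) : ℂ) else 0 := by
    intro j; rw [chiC, aeval_X]; rfl
  simp_rw [h3, h4]
  have hprod : ∀ j : Fin t, (∏ i' ∈ Finset.univ.erase l,
      ((C (((e j : Fin n) : ℕ) : ℂ) : MvPolynomial (Fin t) ℂ) -
        (((i' : Fin n) : ℕ) : MvPolynomial (Fin t) ℂ))) =
      if e j = l then C (kap n l) else 0 := by
    intro j
    split_ifs with h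
    · rw [kap, map_prod]
      apply Finset.prod_congr rfl
      intro i _
      rw [h, map_sub, map_natCast, map_natCast]
    · apply Finset.prod_eq_zero (i := e j)
      · exact Finset.mem_erase.2 ⟨h, Finset.mem_univ _⟩
      · rw [map_natCast, sub_self]
  have hterm : ∀ j : Fin M, (if h : (j : ℕ) < t then
        C (kap n (e ⟨j, h⟩))⁻¹ * (X ⟨j, h⟩ - C (p (e ⟨j, h⟩))) else 0) *
      ∏ i' ∈ Finset.univ.erase l, ((if h : (j : ℕ) < t then
        C (((e ⟨j, h⟩ : Fin n) : ℕ) : ℂ) else 0) -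
        (((i' : Fin n) : ℕ) : MvPolynomial (Fin t) ℂ)) =
      if h : (j : ℕ) < t then (if e ⟨j, h⟩ = l then X ⟨j, h⟩ - C (p l) else 0) else 0 := by
    intro j
    by_cases h : (j : ℕ) < t
    · simp only [dif_pos h]
      rw [hprod ⟨j, h⟩]
      split_ifs with h'
      · rw [h', mul_comm (C (kap n l)⁻¹), mul_assoc, ← C_mul, inv_mul_cancel₀ (kap_ne n l), C_1,
          mul_one]
      · rw [mul_zero]
    · simp only [dif_neg h, zero_mul]
  have h6 : G n M (fun j : Fin M => if h : (j : ℕ) < t then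
        C (kap n (e ⟨j, h⟩))⁻¹ * (X ⟨j, h⟩ - C (p (e ⟨j, h⟩))) else 0)
      (fun j : Fin M => if h : (j : ℕ) < t then
        (C (((e ⟨j, h⟩ : Fin n) : ℕ) : ℂ) : MvPolynomial (Fin t) ℂ) else 0) l =
      ∑ j : Fin M, if h : (j : ℕ) < t then
        (if e ⟨j, h⟩ = l then X ⟨j, h⟩ - C (p l) else 0) else 0 :=
    Finset.sum_congr rfl (fun j _ => hterm j)
  rw [h6]
  by_cases hl : l ∈ Set.range e
  · obtain ⟨k, rfl⟩ := hl
    rw [sp_X_mem e he, Finset.sum_eq_single (⟨k, lt_of_lt_of_le k.2 ht⟩ : Fin M)]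
    · simp [hp]
    · intro j _ hj
      split_ifs with h h'
      · exfalso
        apply hj
        have := he h'
        rw [← this]
      · rfl
      · rfl
    · intro h; exact absurd (Finset.mem_univ _) h
  · rw [sp_X_notMem e _ l hl, Finset.sum_eq_zero, add_zero]
    intro j _
    split_ifs with h h'
    · exact absurd ⟨_, h'⟩ hl
    · rfl
    · rfl

theorem chiC_spec {n M t : ℕ} (ht : t ≤ M) (ε : Fin n → Polynomial ℤ) (e : Fin t → Fin n)
    (he : Function.Injective e) (τ : ℂ) (f : MvPolynomial (Fin n) ℂ) :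
    chiC (M := M) (fun l => Polynomial.aeval τ (ε l)) e τ (spec n M ε f) =
      sp e (fun l => Polynomial.aeval τ (ε l)) f := by
  have : (chiC (M := M) (fun l => Polynomial.aeval τ (ε l)) e τ).comp (spec n M ε) =
      sp e (fun l => Polynomial.aeval τ (ε l)) := by
    apply MvPolynomial.algHom_ext
    intro l
    exact chiC_spec_X ht ε e he τ l
  exact DFunLike.congr_fun this f

theorem indep_spec {n M t : ℕ} (ht : t ≤ M) (ε : Fin n → Polynomial ℤ)
    (c : Fin t → MvPolynomial (Fin n) ℂ) (e : Fin t → Fin n) (he : Function.Injective e) (τ : ℂ)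
    (hD : eval (fun l => Polynomial.aeval τ (ε l))
      (Matrix.of fun i j => pderiv (e j) (c i)).det ≠ 0) :
    AlgebraicIndependent ℂ (fun i => spec n M ε (c i)) := by
  classical
  set a : Fin n → ℂ := fun l => Polynomial.aeval τ (ε l) with ha
  have hind : AlgebraicIndependent ℂ (fun i => sp e a (c i)) := by
    apply Pool.Agent.Helper93.D4.algInd_of_jac
    have h1 : (Matrix.of fun i j => pderiv j (sp e a (c i))) =
        (sp e a).toRingHom.mapMatrix (Matrix.of fun i j => pderiv (e j) (c i)) := by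
      ext1 i j
      simp [pderiv_sp e he]
    rw [h1, ← RingHom.map_det]
    intro h0
    apply hD
    have h2 : sp e a (Matrix.of fun i j => pderiv (e j) (c i)).det = 0 := h0
    have h3 := Pool.Agent.Helper76.VT.eval_sp e he a
      (Matrix.of fun i j => pderiv (e j) (c i)).det
    rw [h2, map_zero] at h3
    exact h3.symm
  rw [algebraicIndependent_iff]
  intro F hF
  rw [algebraicIndependent_iff] at hind
  apply hind
  have h1 := congrArg (chiC (M := M) a e τ) hF
  rw [map_zero, comp_aeval_apply] at h1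
  simp_rw [ha, chiC_spec ht ε e he τ] at h1
  exact h1

end LRH
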