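import Mathlib
import Pool.Agent.Helper88.LR.Curve
import Pool.Agent.Helper88.LR.Indep
import Pool.Agent.Helper53.JB.GPL
import Pool.Agent.Helper53.JB.Deriv
import Pool.Agent.Helper62.VT.LowDeg

/-!
# LR: faithfulness of the curve on polynomials of small any-order rank
-/

set_option autoImplicit false

namespace LRH

open MvPolynomial AOR JB
open Pool.Agent.Helper62.VT (spec)

theorem eval_scale {n : ℕ} (c : ℂ) (x : Fin n → ℂ) (u : MvPolynomial (Fin n) ℂ) :
    eval x (aeval (fun i => C c * X i) u : MvPolynomial (Fin n) ℂ) =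
      eval (fun i => c * x i) u := by
  have h : (eval x).comp (aeval (fun i => C c * X i) :
      MvPolynomial (Fin n) ℂ →ₐ[ℂ] MvPolynomial (Fin n) ℂ).toRingHom =
      eval (fun i => c * x i) := by
    apply MvPolynomial.ringHom_ext
    · intro a
      simp
    · intro i
      simp
  exact congrArg (fun φ => φ u) h

/-- A nonzero polynomial of small any-order rank does not vanish at some point of the curve. -/
theorem exists_curve {n D R : ℕ} {g : MvPolynomial (Fin n) ℂ} (h0 : g ≠ 0) (hR : AO R g)
    (hD : g.totalDegree ≤ D) :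
    ∃ z : ℕ, eval (fun l => Polynomial.aeval (z : ℂ) (curve (enum (hittingSet n D R)) l)) g ≠ 0 := by
  set N : ℂ := ((hittingSet n D R).card.factorial : ℂ) with hN
  have hN0 : N ≠ 0 := Nat.cast_ne_zero.2 (Nat.factorial_ne_zero _)
  have h1 : (aeval (fun i => C N * X i) g : MvPolynomial (Fin n) ℂ) ≠ 0 := by
    obtain ⟨v, hv⟩ := Pool.Agent.Helper28.D4.exists_eval_ne_zero _ h0
    intro h
    apply hv
    have h2 := eval_scale N (fun i => N⁻¹ * v i) g
    rw [h, map_zero] at h2
    rw [h2]
    congr 2
    funext i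
    rw [← mul_assoc, mul_inv_cancel₀ hN0, one_mul]
  obtain ⟨x, hx, hne⟩ := hits (ao_scale hR N) h1
    ((totalDegree_aeval_lin g _ fun i => by
      refine (totalDegree_mul _ _).trans ?_
      rw [totalDegree_C, totalDegree_X]).trans hD)
  obtain ⟨z, hz⟩ := curve_point hx
  refine ⟨z, ?_⟩
  rw [eval_scale] at hne
  convert hne using 3
  funext l
  have h3 := Polynomial.eval₂_at_intCast (p := curve (enum (hittingSet n D R)) l)
    (Int.castRingHom ℂ) (z : ℤ)
  have h4 : algebraMap ℤ ℂ = Int.castRingHom ℂ := RingHom.ext_int _ _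
  rw [Polynomial.aeval_def, h4]
  have h5 : ((z : ℕ) : ℂ) = (((z : ℕ) : ℤ) : ℂ) := by push_cast; rfl
  rw [h5]
  refine h3.trans ?_
  rw [Int.cast_id, hz, eq_intCast]
  push_cast
  rfl

theorem ao_faithful {n M ρ δ : ℕ} (c : Fin M → MvPolynomial (Fin n) ℂ)
    (hc : ∀ j, AO ρ (c j) ∧ (c j).totalDegree ≤ δ) (H : MvPolynomial (Fin M) ℂ)
    (h0 : aeval c H ≠ 0) :
    spec n M (curve (enum (hittingSet n (M * δ) (M.factorial * ρ ^ M)))) (aeval c H) ≠ 0 := by
  classical
  obtain ⟨t, ht, s, hs, B, g, hB, hBg⟩ := Pool.Agent.Helper28.D4.norm_trick (r := M) c (by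
    intro s hs
    have : Function.Injective s := fun i j hij => hs.injective (by simp [hij])
    have := Fintype.card_le_of_injective s this
    simp at this) H h0
  intro h0'
  have h1 := congrArg (spec n M (curve (enum (hittingSet n (M * δ) (M.factorial * ρ ^ M))))) hBg
  rw [map_mul, h0', zero_mul, comp_aeval_apply] at h1
  suffices h2 : AlgebraicIndependent ℂ (fun i =>
      spec n M (curve (enum (hittingSet n (M * δ) (M.factorial * ρ ^ M)))) (c (s i))) by
    rw [algebraicIndependent_iff] at h2
    exact hB (h2 B h1)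
  rcases Nat.eq_zero_or_pos t with ht0 | ht0
  · subst ht0
    rw [algebraicIndependent_empty_type_iff]
    exact (algebraMap ℂ (MvPolynomial (Option (Fin M ⊕ Fin M)) ℂ)).injective
  obtain ⟨e, hdet⟩ := Pool.Agent.Helper93.D4.jac_of_algInd (fun i => c (s i)) hs
  have he : Function.Injective e := by
    intro j k hjk
    by_contra hne
    apply hdet
    apply Matrix.det_zero_of_column_eq hne
    intro i
    simp [hjk]
  have hdeg : (Matrix.of fun i j => MvPolynomial.pderiv (e j) (c (s i))).det.totalDegree ≤ M * δ :=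
    (Pool.Agent.Helper62.VT.totalDegree_det_le _ δ fun i j =>
      (Pool.Agent.Helper62.D4.totalDegree_pderiv_le _ _).trans (hc _).2).trans
        (Nat.mul_le_mul_right δ ht)
  have hao : AO (M.factorial * ρ ^ M)
      (Matrix.of fun i j => MvPolynomial.pderiv (e j) (c (s i))).det := by
    refine ao_mono (ao_det (R := ρ) _ fun i j => ao_pderiv (hc (s i)).1 (e j)) ?_
    rcases Nat.eq_zero_or_pos ρ with hρ | hρ
    · subst hρ
      rw [zero_pow ht0.ne', mul_zero]
      exact Nat.zero_le _
    · exact Nat.mul_le_mul (Nat.factorial_le ht) (Nat.pow_le_pow_right hρ ht)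
  obtain ⟨z, hz⟩ := exists_curve hdet hao hdeg
  exact indep_spec ht _ _ e he z hz

end LRH
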