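import Mathlib
import Pool.Agent.Helper88.LR.Defs
import Pool.Agent.Helper62.VT.Final

/-!
# LR-3: the parameters

`exists_one`: one polynomial `A`. Let `S = Finset.univ.image e` (`S.card = r ≤ R`). For `y : Fin n → ℂ` let
`γ y = aeval (fun l => if l ∈ S then C (y l) else X l) A` (the value of `A` at `y` on `S`; `eval x (γ y) = eval (S.piecewise y x) A`).
1. `AO ρ (γ y)`: for a set `T`, `eval (T.piecewise x x') (γ y) = eval (T.piecewise (S.piecewise y x) (S.piecewise y x')) A`
   (pointwise), so the families `aeval (fun l => if l ∈ S then C (y l) else X l) (A k)`, `… (B k)` do it.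
   `(γ y).totalDegree ≤ A.totalDegree` (each variable goes to a polynomial of degree `≤ 1`).
2. With `LR R w A` for `S`: `γ y = ∑ k, C (eval y (A k)) * B k` (`MvPolynomial.funext`), so
   `V = span ℂ (range γ) ≤ span ℂ (range B)` has dimension `≤ w`. Choose `y_1, …, y_v`, `v = finrank V ≤ w`, with
   `span ℂ (range fun i => γ (y_i)) = V` (`Submodule.exists_fun_fin_finrank_span_eq`, or any spanning subset), and extend by `0`
   to a family `Fin w → MvPolynomial`.
3. `split e X A ∈ W r (adjoin V)`: by `mem_W_iff` every coefficient `c_k` of `split e X A` must be in `adjoin ℂ (range γ)`; it is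
   even in `V`: for a linear functional `λ` on `MvPolynomial (Fin n) ℂ` which is `0` on `V` (`Submodule.exists_dual_map_eq_bot_of_notMem`
   or similar) the polynomial `∑ k, λ (c_k) y ^ k ∈ ℂ[y]` (`MvPolynomial (Fin r) ℂ`) has the value `λ (γ y) = 0` at every `y`
   (`split e X A` with the variables `X j` put equal to the constants `y_j` is `γ y'` for `y' (e j) = y_j`), so it is `0` and
   `λ (c_k) = 0` for all `k`.
`exists_lr_params`: apply `exists_one` to all `A j` and reindex `Fin κ × Fin w ≃ Fin (κ * w)` (`finProdFinEquiv`), `W_mono`.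
-/

set_option autoImplicit false

namespace LRH

open MvPolynomial AOR
open Pool.Agent.Helper62.VT (split W)

private theorem h90_totalDegree {σ τ : Type} [Fintype σ] (p : MvPolynomial σ ℂ)
    (f : σ → MvPolynomial τ ℂ) (hf : ∀ i, (f i).totalDegree ≤ 1) :
    (aeval f p).totalDegree ≤ p.totalDegree := by
  classical
  rw [aeval_def, eval₂_eq']
  refine totalDegree_finsetSum_le fun d hd => ?_
  refine (totalDegree_mul _ _).trans ?_
  have h1 : (algebraMap ℂ (MvPolynomial τ ℂ) (coeff d p)).totalDegree = 0 := by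
    rw [MvPolynomial.algebraMap_eq, totalDegree_C]
  rw [h1, zero_add]
  refine (totalDegree_finsetProd _ _).trans ?_
  have h2 : ∑ i, (f i ^ d i).totalDegree ≤ ∑ i, d i := by
    refine Finset.sum_le_sum fun i _ => (totalDegree_pow _ _).trans ?_
    have := Nat.mul_le_mul_left (d i) (hf i)
    omega
  refine h2.trans ?_
  have h3 := le_totalDegree hd
  rw [Finsupp.sum_fintype _ _ (fun _ => rfl)] at h3
  exact h3

/-- the variables in `S` are put equal to `y` -/
private noncomputable def pe {n : ℕ} (S : Finset (Fin n)) (y : Fin n → ℂ) :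
    MvPolynomial (Fin n) ℂ →ₐ[ℂ] MvPolynomial (Fin n) ℂ :=
  aeval fun l => if l ∈ S then C (y l) else X l

private theorem eval_pe {n : ℕ} (S : Finset (Fin n)) (y x : Fin n → ℂ)
    (A : MvPolynomial (Fin n) ℂ) : eval x (pe S y A) = eval (S.piecewise y x) A := by
  have h1 := comp_aeval_apply (fun l => if l ∈ S then C (y l) else X l)
    (aeval x : MvPolynomial (Fin n) ℂ →ₐ[ℂ] ℂ) A
  have h2 : (fun l => (aeval x : MvPolynomial (Fin n) ℂ →ₐ[ℂ] ℂ)
      (if l ∈ S then C (y l) else X l)) = S.piecewise y x := by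
    funext l
    by_cases hl : l ∈ S
    · rw [if_pos hl, Finset.piecewise_eq_of_mem _ _ _ hl, ← MvPolynomial.algebraMap_eq,
        AlgHom.commutes]
      rfl
    · rw [if_neg hl, Finset.piecewise_eq_of_notMem _ _ _ hl, aeval_X]
  rw [h2] at h1
  exact h1

private theorem ao_zero' {n ρ : ℕ} : AO ρ (0 : MvPolynomial (Fin n) ℂ) := fun S =>
  ⟨0, 0, fun x y => by simp⟩

private theorem ao_pe {n ρ : ℕ} (S : Finset (Fin n)) (y : Fin n → ℂ)
    {A : MvPolynomial (Fin n) ℂ} (hA : AO ρ A) : AO ρ (pe S y A) := by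
  intro T
  obtain ⟨A', B', h⟩ := hA T
  refine ⟨fun k => pe S y (A' k), fun k => pe S y (B' k), fun x x' => ?_⟩
  have h1 : S.piecewise y (T.piecewise x x') =
      T.piecewise (S.piecewise y x) (S.piecewise y x') := by
    funext l
    by_cases hS : l ∈ S <;> by_cases hT : l ∈ T <;> simp [hS, hT]
  rw [eval_pe, h1, h]
  exact Finset.sum_congr rfl fun k _ => by rw [eval_pe, eval_pe]

private theorem deg_pe {n : ℕ} (S : Finset (Fin n)) (y : Fin n → ℂ)
    (A : MvPolynomial (Fin n) ℂ) : (pe S y A).totalDegree ≤ A.totalDegree := by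
  refine h90_totalDegree A _ fun l => ?_
  split_ifs
  · rw [totalDegree_C]
    exact Nat.zero_le 1
  · rw [totalDegree_X]

private theorem eval_split {n r : ℕ} (e : Fin r → Fin n) (z : Fin r → ℂ)
    (A : MvPolynomial (Fin n) ℂ) :
    ∃ y : Fin n → ℂ, eval (fun j => (C (z j) : MvPolynomial (Fin n) ℂ))
      (split e (X : Fin n → MvPolynomial (Fin n) ℂ) A) = pe (Finset.univ.image e) y A := by
  classical
  refine ⟨fun l => if h : ∃ j, e j = l then z h.choose else 0, ?_⟩
  have h1 := comp_aeval_apply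
    (fun l => if h : ∃ j, e j = l then X h.choose else
      (C ((X : Fin n → MvPolynomial (Fin n) ℂ) l) : MvPolynomial (Fin r) (MvPolynomial (Fin n) ℂ)))
    ((aeval (fun j => (C (z j) : MvPolynomial (Fin n) ℂ)) :
      MvPolynomial (Fin r) (MvPolynomial (Fin n) ℂ) →ₐ[MvPolynomial (Fin n) ℂ]
        MvPolynomial (Fin n) ℂ).restrictScalars ℂ) A
  have h2 : (fun l => ((aeval (fun j => (C (z j) : MvPolynomial (Fin n) ℂ)) :
      MvPolynomial (Fin r) (MvPolynomial (Fin n) ℂ) →ₐ[MvPolynomial (Fin n) ℂ]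
        MvPolynomial (Fin n) ℂ).restrictScalars ℂ)
      (if h : ∃ j, e j = l then X h.choose else
      (C ((X : Fin n → MvPolynomial (Fin n) ℂ) l) :
        MvPolynomial (Fin r) (MvPolynomial (Fin n) ℂ)))) =
      fun l => if l ∈ Finset.univ.image e then
        (C (if h : ∃ j, e j = l then z h.choose else 0) : MvPolynomial (Fin n) ℂ) else X l := by
    funext l
    by_cases hl : ∃ j, e j = l
    · have hm : l ∈ Finset.univ.image e := by
        obtain ⟨j, hj⟩ := hl
        exact Finset.mem_image.2 ⟨j, Finset.mem_univ _, hj⟩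
      rw [dif_pos hl, if_pos hm, dif_pos hl, AlgHom.restrictScalars_apply, aeval_X]
    · have hm : l ∉ Finset.univ.image e := by
        intro h
        obtain ⟨j, -, hj⟩ := Finset.mem_image.1 h
        exact hl ⟨j, hj⟩
      rw [dif_neg hl, if_neg hm, AlgHom.restrictScalars_apply, aeval_C]
      rfl
  rw [h2] at h1
  exact h1

/-- the coefficients are in the span of the values -/
private theorem coeff_mem_span {n r : ℕ} (F : MvPolynomial (Fin r) (MvPolynomial (Fin n) ℂ))
    (V : Submodule ℂ (MvPolynomial (Fin n) ℂ))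
    (hV : ∀ z : Fin r → ℂ, eval (fun j => (C (z j) : MvPolynomial (Fin n) ℂ)) F ∈ V)
    (k : Fin r →₀ ℕ) : coeff k F ∈ V := by
  classical
  by_contra hk
  obtain ⟨f, hf1, hf2⟩ := Submodule.exists_dual_map_eq_bot_of_notMem hk inferInstance
  have hf3 : ∀ v ∈ V, f v = 0 := by
    intro v hv
    have : f v ∈ V.map f := Submodule.mem_map_of_mem hv
    rw [hf2] at this
    exact (Submodule.mem_bot ℂ).1 this
  set Q : MvPolynomial (Fin r) ℂ := ∑ m ∈ F.support, monomial m (f (coeff m F)) with hQ
  have hQ0 : Q = 0 := by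
    apply MvPolynomial.funext
    intro z
    rw [map_zero, hQ, map_sum]
    have h1 := hf3 _ (hV z)
    rw [eval_eq', map_sum] at h1
    rw [← h1]
    refine Finset.sum_congr rfl fun m _ => ?_
    rw [eval_monomial, Finsupp.prod_fintype _ _ (fun _ => pow_zero _)]
    have h2 : coeff m F * ∏ i, (C (z i) : MvPolynomial (Fin n) ℂ) ^ m i =
        (∏ i, z i ^ m i) • coeff m F := by
      have h3 : ∏ i, (C (z i) : MvPolynomial (Fin n) ℂ) ^ m i = C (∏ i, z i ^ m i) := by
        rw [map_prod]
        exact Finset.prod_congr rfl fun i _ => by rw [map_pow]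
      rw [h3, MvPolynomial.smul_eq_C_mul, mul_comm]
    rw [h2, map_smul, smul_eq_mul, mul_comm]
  have h4 : coeff k Q = f (coeff k F) := by
    rw [hQ, coeff_sum]
    simp only [coeff_monomial]
    rw [Finset.sum_ite_eq' F.support k]
    split_ifs with h
    · rfl
    · rw [notMem_support_iff.1 h, map_zero]
  rw [hQ0, coeff_zero] at h4
  exact hf1 h4.symm

theorem exists_one {n r R w ρ δ : ℕ} {e : Fin r → Fin n} (he : Function.Injective e)
    (hr : r ≤ R) (A : MvPolynomial (Fin n) ℂ)
    (hA : A.totalDegree ≤ δ ∧ AO ρ A ∧ LR R w A) :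
    ∃ γ : Fin w → MvPolynomial (Fin n) ℂ, (∀ j, AO ρ (γ j) ∧ (γ j).totalDegree ≤ δ) ∧
      split e (X : Fin n → MvPolynomial (Fin n) ℂ) A ∈ W r (Algebra.adjoin ℂ (Set.range γ)) := by
  classical
  obtain ⟨hd, hao, hlr⟩ := hA
  set S : Finset (Fin n) := Finset.univ.image e with hS
  have hcard : S.card ≤ R := by
    refine (Finset.card_image_le).trans ?_
    rw [Finset.card_univ, Fintype.card_fin]
    exact hr
  obtain ⟨A', B', hAB⟩ := hlr S hcard
  have hle : Submodule.span ℂ (Set.range fun y => pe S y A) ≤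
      Submodule.span ℂ (Set.range B') := by
    rw [Submodule.span_le]
    rintro _ ⟨y, rfl⟩
    have h1 : pe S y A = ∑ k, eval y (A' k) • B' k := by
      apply MvPolynomial.funext
      intro x
      rw [eval_pe, hAB, map_sum]
      exact Finset.sum_congr rfl fun k _ => by rw [smul_eval]
    show pe S y A ∈ Submodule.span ℂ (Set.range B')
    rw [h1]
    exact Submodule.sum_mem _ fun k _ =>
      Submodule.smul_mem _ _ (Submodule.subset_span ⟨k, rfl⟩)
  have : FiniteDimensional ℂ (Submodule.span ℂ (Set.range B')) :=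
    FiniteDimensional.span_of_finite ℂ (Set.finite_range B')
  have : FiniteDimensional ℂ (Submodule.span ℂ (Set.range fun y => pe S y A)) :=
    Submodule.finiteDimensional_of_le hle
  have hfr : Module.finrank ℂ (Submodule.span ℂ (Set.range fun y => pe S y A)) ≤ w := by
    refine (Submodule.finrank_mono hle).trans ?_
    refine (finrank_range_le_card B').trans ?_
    rw [Fintype.card_fin]
  obtain ⟨v, hfr, f, hf1, hf2⟩ : ∃ v, v ≤ w ∧ ∃ f : Fin v → MvPolynomial (Fin n) ℂ,
      (∀ i, f i ∈ Set.range fun y => pe S y A) ∧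
        Submodule.span ℂ (Set.range f) = Submodule.span ℂ (Set.range fun y => pe S y A) := by
    obtain ⟨f, hf1, hf2, -⟩ :=
      Submodule.exists_fun_fin_finrank_span_eq ℂ (Set.range fun y => pe S y A)
    exact ⟨_, hfr, f, hf1, hf2⟩
  refine ⟨fun j => if h : (j : ℕ) < v then f ⟨j, h⟩ else 0, fun j => ?_, ?_⟩
  · by_cases h : (j : ℕ) < v
    · simp only [dif_pos h]
      obtain ⟨y, hy⟩ := hf1 ⟨j, h⟩
      rw [← hy]
      exact ⟨ao_pe S y hao, (deg_pe S y A).trans hd⟩
    · simp only [dif_neg h]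
      exact ⟨ao_zero', by rw [totalDegree_zero]; exact Nat.zero_le _⟩
  · rw [Pool.Agent.Helper62.VT.mem_W_iff]
    intro k
    have h1 : coeff k (split e (X : Fin n → MvPolynomial (Fin n) ℂ) A) ∈
        Submodule.span ℂ (Set.range fun y => pe S y A) := by
      refine coeff_mem_span _ _ (fun z => ?_) k
      obtain ⟨y, hy⟩ := eval_split e z A
      rw [hy]
      exact Submodule.subset_span ⟨y, rfl⟩
    rw [← hf2] at h1
    have h2 : Submodule.span ℂ (Set.range f) ≤
        Subalgebra.toSubmodule (Algebra.adjoin ℂ (Set.range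
          (fun j : Fin w => if h : (j : ℕ) < v then f ⟨j, h⟩ else 0))) := by
      rw [Submodule.span_le]
      rintro _ ⟨i, rfl⟩
      refine Algebra.subset_adjoin ⟨⟨i, lt_of_lt_of_le i.2 hfr⟩, ?_⟩
      simp only [dif_pos i.2]
    exact h2 h1

theorem exists_lr_params {n r R κ w ρ δ : ℕ} {e : Fin r → Fin n} (he : Function.Injective e)
    (hr : r ≤ R) (A : Fin κ → MvPolynomial (Fin n) ℂ)
    (hA : ∀ j, (A j).totalDegree ≤ δ ∧ AO ρ (A j) ∧ LR R w (A j)) :
    ∃ γ : Fin (κ * w) → MvPolynomial (Fin n) ℂ, (∀ j, AO ρ (γ j) ∧ (γ j).totalDegree ≤ δ) ∧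
      ∀ j, split e (X : Fin n → MvPolynomial (Fin n) ℂ) (A j) ∈
        W r (Algebra.adjoin ℂ (Set.range γ)) := by
  choose γ0 hγ1 hγ2 using fun j => exists_one he hr (A j) (hA j)
  refine ⟨fun i => γ0 (finProdFinEquiv.symm i).1 (finProdFinEquiv.symm i).2,
    fun i => hγ1 _ _, fun j => ?_⟩
  refine Pool.Agent.Helper62.VT.W_mono (Algebra.adjoin_mono ?_) (hγ2 j)
  rintro _ ⟨s, rfl⟩
  refine ⟨finProdFinEquiv (j, s), ?_⟩
  simp only [Equiv.symm_apply_apply]

end LRH
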