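import Mathlib
import Pool.Agent.Helper88.LR.Faithful
import Pool.Agent.Helper88.LR.Params
import Pool.Agent.Helper62.VT.Final

/-!
# LR: the hitting property
-/

set_option autoImplicit false

namespace LRH

open MvPolynomial AOR JB
open Pool.Agent.Helper62.VT

variable {n : ℕ}

/-- `Pool.Agent.Helper62.VT.exists_point` for the divisors of the polynomials in products. -/
theorem exists_point_dvd {m r M D d b : ℕ} (P : Fin m → MvPolynomial (Fin n) ℂ)
    (hr : ∀ s : Fin (r + 1) → Fin m, ¬ AlgebraicIndependent ℂ fun i => P (s i))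
    (g : MvPolynomial (Fin m) ℂ) (h0 : aeval P g ≠ 0) (p : MvPolynomial (Fin n) ℂ)
    (hp : p ∣ aeval P g) (hd : p.totalDegree ≤ d)
    (E : Set (Fin n → Polynomial ℤ)) (hD : ∀ ε ∈ E, ∀ l, (ε l).natDegree ≤ D)
    (hb : d * (D + n) ≤ b)
    (H : ∀ r' ≤ r, ∀ t : Fin r' → Fin m, (∀ i, P (t i) ≠ 0) → ∀ e : Fin r' → Fin n,
      Function.Injective e →
      ∃ (B : Type) (_ : Fintype B) (_ : DecidableEq B) (f : B → MvPolynomial (Fin n) ℂ)
        (mm : Fin r' → B → ℕ), (∀ b, f b ≠ 0) ∧ (∀ i, P (t i) = ∏ b, f b ^ mm i b) ∧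
        ∃ c : B → Set (MvPolynomial (Fin n) ℂ),
          (∀ b k, (split e (X : Fin n → MvPolynomial (Fin n) ℂ) (f b)).coeff k ∈
            Algebra.adjoin ℂ (c b)) ∧
          ∃ ε ∈ E, ∀ T : Finset B, T.card ≤ r' + 1 →
            ∀ x ∈ Algebra.adjoin ℂ (⋃ b ∈ T, c b), spec n M ε x = 0 → x = 0) :
    ∃ ε ∈ E, ∃ a ∈ pts n (r + M) (fun l => (ε l).eval) b,
      eval (fun l => ((a l : ℤ) : ℂ)) p ≠ 0 := by
  classical
  obtain ⟨r', hr', t, ht, β, h, hβ, hβh⟩ := Pool.Agent.Helper28.D4.norm_trick P hr g h0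
  obtain ⟨e, hdet⟩ := Pool.Agent.Helper93.D4.jac_of_algInd (fun i => P (t i)) ht
  have he : Function.Injective e := by
    intro j k hjk
    by_contra hne
    apply hdet
    apply Matrix.det_zero_of_column_eq hne
    intro i
    rw [Matrix.of_apply, Matrix.of_apply, hjk]
  obtain ⟨B, hB1, hB2, f, mm, hf0, hP, c, hc, ε, hε, hs⟩ :=
    H r' hr' t (fun i => ht.ne_zero i) e he
  have h1 := indep_split (spec n M ε) he (fun i => P (t i)) hdet f hf0 mm hP c hc hs
  have h2 := split_ne_zero h1 hβ hβh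
  have h2' : split e (fun l => spec n M ε (X l)) p ≠ 0 := by
    intro h3
    obtain ⟨q, hq⟩ := hp
    apply h2
    rw [hq, map_mul, h3, zero_mul]
  have h3 := exists_cpt he ε _ h2'
  obtain ⟨a, ha, hne⟩ := exists_pts ε (hD ε hε) _ hd hb h3
  exact ⟨ε, hε, a, pts_mono (Nat.add_le_add_right hr' M) _ _ ha, hne⟩

theorem pts_hits {m r κ w ρ δ d : ℕ} (P : Fin m → MvPolynomial (Fin n) ℂ)
    (hP : ∀ i, P i ∈ Products n r κ w ρ δ)
    (hr : ∀ s : Fin (r + 1) → Fin m, ¬ AlgebraicIndependent ℂ fun i => P (s i))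
    (g : MvPolynomial (Fin m) ℂ) (h0 : aeval P g ≠ 0) (p : MvPolynomial (Fin n) ℂ)
    (hp : p ∣ aeval P g) (hd : p.totalDegree ≤ d) :
    ∃ a ∈ pts n (r + par r κ w) (fun l => (curve (enum (H₀ n r κ w ρ δ)) l).eval)
      (grid n r κ w ρ δ d), eval (fun l => ((a l : ℤ) : ℂ)) p ≠ 0 := by
  classical
  obtain ⟨ε, hε, h⟩ := exists_point_dvd (M := par r κ w) (D := (H₀ n r κ w ρ δ).card) P hr g h0 p hp
    hd {curve (enum (H₀ n r κ w ρ δ))} (by
      rintro ε rfl l
      refine (curve_natDegree _ l).trans ?_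
      rw [length_enum]) (b := grid n r κ w ρ δ d) le_rfl (by
      intro r' hr' t ht e he
      have hL : ∀ i, ∃ L : List (MvPolynomial (Fin n) ℂ), (∀ q ∈ L, q ∈ Factors n r κ w ρ δ) ∧
          P (t i) = L.prod := fun i => by
        obtain ⟨L, hL, h⟩ := Submonoid.exists_list_of_mem_closure (hP (t i))
        exact ⟨L, hL, h.symm⟩
      choose L hL1 hL2 using hL
      obtain ⟨B, hB1, hB2, f, mm, hf0, hfL, hfP, -⟩ :=
        exists_factorization (fun i => P (t i)) L hL2 ht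
      refine ⟨B, hB1, hB2, f, mm, hf0, hfP, ?_⟩
      have hfac : ∀ b, f b ∈ Factors n r κ w ρ δ := by
        intro b
        obtain ⟨i, hi⟩ := hfL b
        exact hL1 i _ hi
      choose A F hA hfA using hfac
      choose γ hγ1 hγ2 using fun b => exists_lr_params he hr' (A b) (hA b)
      refine ⟨fun b => Set.range (γ b), ?_, curve (enum (H₀ n r κ w ρ δ)), rfl, ?_⟩
      · intro b k
        rw [hfA b]
        exact coeff_split_aeval _ _ _ (hγ2 b) k
      · intro T hT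
        exact faithful_of_tuple (Q := fun q => AO ρ q ∧ q.totalDegree ≤ δ) _
          ⟨ao_zero, by rw [totalDegree_zero]; exact Nat.zero_le δ⟩ γ hγ1 (t := r' + 1)
          (Nat.mul_le_mul_right _ (Nat.succ_le_succ hr'))
          (fun c hc H hH => ao_faithful c hc H hH) T hT)
  rw [Set.mem_singleton_iff] at hε
  subst hε
  exact h

theorem pts_eq (n r κ w ρ δ d : ℕ) :
    pts n (r + par r κ w) (fun l => (curve (enum (H₀ n r κ w ρ δ)) l).eval) (grid n r κ w ρ δ d) =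
      hset n r κ w ρ δ d := by
  unfold pts hset
  congr 1
  funext c l
  change (curve (enum (H₀ n r κ w ρ δ)) l).eval ((c.1 : ℕ) : ℤ) + _ = _
  rw [curve_eval, length_enum]
  rfl

/-- **Theorem D4+.** -/
theorem hset_hits {r κ w ρ δ d : ℕ} {f : MvPolynomial (Fin n) ℂ}
    (hf : f ∈ Circuits n r κ w ρ δ) (hd : f.totalDegree ≤ d) :
    ∃ a ∈ hset n r κ w ρ δ d, eval (fun i => ((a i : ℤ) : ℂ)) f ≠ 0 := by
  obtain ⟨m, P, g, hP, hr, h0, hp⟩ := hf
  obtain ⟨a, ha, hne⟩ := pts_hits P hP (by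
    intro s hs
    exact hr ⟨s, fun i j hij => hs.injective (by simp only [hij])⟩ hs) g h0 f hp hd
  exact ⟨a, (pts_eq n r κ w ρ δ d) ▸ ha, hne⟩

end LRH
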