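import Mathlib
import Pool.Agent.Helper88.LR.Defs
import Pool.Agent.Helper62.VT.LowDeg

/-!
# LR-4: ranks of sparse polynomials and of polynomials of small degree

`rank_of_restr`: one set `S`. Let `Θ = f.support.image (fun α => α.filter (· ∈ S))`. Then
`eval (S.piecewise x y) f = ∑ α ∈ f.support, coeff α f * ∏_{l ∈ S} x l ^ α l * ∏_{l ∉ S} y l ^ α l
  = ∑ θ ∈ Θ, (monomial θ 1) (x) * (∑ α ∈ f.support with α.filter (· ∈ S) = θ, monomial (α.filter (· ∉ S)) (coeff α f)) (y)`
(`eval_eq'`, `Finset.sum_fiberwise_of_maps_to`); index type `Θ` with at most `w` elements, reindexed to `Fin w` as in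
`JB.ao_of` (`Helper53/JB/Rank.lean`).
`ao_of_support`: `Finset.card_image_le`. `lr_of_degreeOf`: `Θ` injects into `S → Fin (D + 1)` (`θ ↦ θ l`, `monomial_le_degreeOf`),
`(D + 1) ^ S.card ≤ (D + 1) ^ q`. `totalDegree_le_of_degreeOf`: every monomial has degree `∑ l, α l ≤ n * D`.
`ao_of_totalDegree`: the support has at most `(n + 1) ^ δ` elements: all `α` in it have degree `≤ δ`, so are in the image of
`wexp : (Fin δ → Option (Fin n)) → (Fin n →₀ ℕ)` (`exists_wexp` in `Helper62/VT/LowDeg.lean`). `lr_of_totalDegree`: the same for `Θ`, with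
`Fin δ → Option S` (or `wexp` for `r = S.card` and an equivalence `Fin S.card ≃ S`; or count
`u : Fin δ → Option S ↦ ∑ i, (u i).elim 0 (fun l => single l 1)`, surjective onto the exponents supported in `S` of degree `≤ δ`).
-/

set_option autoImplicit false

namespace LRH

open MvPolynomial AOR

/-- The index type may be any finite type with at most `r` elements. -/
private theorem h45_of {n r : ℕ} {g : (Fin n → ℂ) → (Fin n → ℂ) → ℂ} {ι : Type} [Fintype ι]
    (A B : ι → MvPolynomial (Fin n) ℂ) (hc : Fintype.card ι ≤ r)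
    (h : ∀ x y : Fin n → ℂ, g x y = ∑ k, eval x (A k) * eval y (B k)) :
    ∃ A B : Fin r → MvPolynomial (Fin n) ℂ, ∀ x y : Fin n → ℂ,
      g x y = ∑ k, eval x (A k) * eval y (B k) := by
  obtain ⟨e⟩ := Function.Embedding.nonempty_of_card_le (α := ι) (β := Fin r)
    (by rw [Fintype.card_fin]; exact hc)
  refine ⟨Function.extend e A 0, Function.extend e B 0, fun x y => ?_⟩
  rw [h]
  refine Fintype.sum_of_injective e e.injective _ _ ?_ ?_
  · intro k hk
    rw [Function.extend_apply' _ _ _ (fun ⟨i, hi⟩ => hk ⟨i, hi⟩)]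
    simp
  · intro i
    rw [e.injective.extend_apply, e.injective.extend_apply]

private theorem h45_prod {n : ℕ} (S : Finset (Fin n)) (x y : Fin n → ℂ) (α : Fin n →₀ ℕ) :
    ∏ i, (S.piecewise x y) i ^ α i =
      (∏ i, x i ^ (α.filter (· ∈ S)) i) * ∏ i, y i ^ (α.filter (· ∉ S)) i := by
  rw [← Finset.prod_mul_distrib]
  refine Finset.prod_congr rfl fun i _ => ?_
  rw [Finsupp.filter_apply, Finsupp.filter_apply]
  by_cases hi : i ∈ S
  · rw [Finset.piecewise_eq_of_mem _ _ _ hi, if_pos hi, if_neg (not_not.2 hi), pow_zero, mul_one]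
  · rw [Finset.piecewise_eq_of_notMem _ _ _ hi, if_neg hi, if_pos hi, pow_zero, one_mul]

private theorem h45_evalmon {n : ℕ} (x : Fin n → ℂ) (θ : Fin n →₀ ℕ) (c : ℂ) :
    eval x (monomial θ c) = c * ∏ i, x i ^ θ i := by
  rw [eval_monomial, Finsupp.prod_fintype]
  intro i
  exact pow_zero _

/-- The exponent given by a word. -/
private noncomputable def h45_wexp {n δ : ℕ} {S : Finset (Fin n)} (u : Fin δ → Option S) :
    Fin n →₀ ℕ :=
  ∑ i, (u i).elim 0 fun a => Finsupp.single (a : Fin n) 1

private theorem h45_exists_wexp {n : ℕ} {S : Finset (Fin n)} : ∀ (δ : ℕ) (k : Fin n →₀ ℕ),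
    k.degree ≤ δ → (∀ i, k i ≠ 0 → i ∈ S) → ∃ u : Fin δ → Option S, h45_wexp u = k := by
  intro δ
  induction δ with
  | zero =>
    intro k hk _
    refine ⟨Fin.elim0, ?_⟩
    have h : k = 0 := by
      rw [← Finsupp.degree_eq_zero_iff]
      omega
    rw [h, h45_wexp, Finset.univ_eq_empty, Finset.sum_empty]
  | succ δ ih =>
    intro k hk hS
    by_cases h0 : k = 0
    · refine ⟨fun _ => none, ?_⟩
      rw [h0, h45_wexp]
      exact Finset.sum_eq_zero fun _ _ => rfl
    · obtain ⟨a, ha⟩ : ∃ a, k a ≠ 0 := by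
        by_contra hcon
        push Not at hcon
        exact h0 (Finsupp.ext hcon)
      have hle : Finsupp.single a 1 ≤ k := by
        rw [Finsupp.single_le_iff]
        omega
      have hk1 : k - Finsupp.single a 1 + Finsupp.single a 1 = k := tsub_add_cancel_of_le hle
      have hdeg : (k - Finsupp.single a 1).degree ≤ δ := by
        have h1 := congrArg Finsupp.degree hk1
        rw [map_add, Finsupp.degree_single] at h1
        omega
      obtain ⟨u, hu⟩ := ih _ hdeg (fun i hi => hS i (by
        intro h2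
        apply hi
        rw [Finsupp.tsub_apply, h2, zero_tsub]))
      refine ⟨Fin.cons (some ⟨a, hS a ha⟩) u, ?_⟩
      rw [h45_wexp, Fin.sum_univ_succ]
      simp only [Fin.cons_zero, Fin.cons_succ, Option.elim_some]
      change Finsupp.single a 1 + h45_wexp u = k
      rw [hu, add_comm]
      exact hk1

theorem rank_of_restr {n w : ℕ} {f : MvPolynomial (Fin n) ℂ} (S : Finset (Fin n))
    (h : (f.support.image fun α => α.filter (· ∈ S)).card ≤ w) :
    ∃ A B : Fin w → MvPolynomial (Fin n) ℂ, ∀ x y : Fin n → ℂ,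
      eval (S.piecewise x y) f = ∑ k, eval x (A k) * eval y (B k) := by
  classical
  refine h45_of (ι := (f.support.image fun α => α.filter (· ∈ S) : Finset (Fin n →₀ ℕ)))
    (fun θ => monomial θ.1 1)
    (fun θ => ∑ α ∈ f.support with α.filter (· ∈ S) = θ.1,
      monomial (α.filter (· ∉ S)) (coeff α f)) (by rw [Fintype.card_coe]; exact h) ?_
  intro x y
  rw [eval_eq']
  have e1 : ∑ d ∈ f.support, coeff d f * ∏ i, (S.piecewise x y) i ^ d i =
      ∑ θ ∈ f.support.image fun α => α.filter (· ∈ S),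
        ∑ α ∈ f.support with α.filter (· ∈ S) = θ,
          coeff α f * ∏ i, (S.piecewise x y) i ^ α i :=
    (Finset.sum_fiberwise_of_maps_to (fun α hα => Finset.mem_image_of_mem _ hα) _).symm
  rw [e1, ← Finset.sum_coe_sort]
  refine Finset.sum_congr rfl fun θ _ => ?_
  rw [h45_evalmon, one_mul, map_sum, Finset.mul_sum]
  refine Finset.sum_congr rfl fun α hα => ?_
  rw [h45_evalmon, h45_prod, (Finset.mem_filter.1 hα).2]
  ring

theorem ao_of_support {n s : ℕ} {f : MvPolynomial (Fin n) ℂ} (h : f.support.card ≤ s) : AO s f := fun S =>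
  rank_of_restr S (Finset.card_image_le.trans h)

theorem lr_of_degreeOf {n q D : ℕ} {f : MvPolynomial (Fin n) ℂ} (h : ∀ l, f.degreeOf l ≤ D) :
    LR q ((D + 1) ^ q) f := by
  classical
  intro S hS
  refine rank_of_restr S ?_
  have h1 : (f.support.image fun α => α.filter (· ∈ S)).card ≤
      (Finset.univ : Finset (S → Fin (D + 1))).card := by
    refine Finset.card_le_card_of_injOn
      (fun θ => fun i : S => (⟨min (θ i) D, Nat.lt_succ_of_le (min_le_right _ _)⟩ : Fin (D + 1)))
      (fun _ _ => Finset.mem_coe.2 (Finset.mem_univ _)) ?_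
    intro θ hθ θ' hθ' he
    obtain ⟨α, hα, rfl⟩ := Finset.mem_image.1 (Finset.mem_coe.1 hθ)
    obtain ⟨α', hα', rfl⟩ := Finset.mem_image.1 (Finset.mem_coe.1 hθ')
    ext i
    rw [Finsupp.filter_apply, Finsupp.filter_apply]
    by_cases hi : i ∈ S
    · rw [if_pos hi, if_pos hi]
      have h2 := congrArg Fin.val (congrFun he ⟨i, hi⟩)
      simp only [Finsupp.filter_apply, if_pos hi] at h2
      have h3 : α i ≤ D := (monomial_le_degreeOf i hα).trans (h i)
      have h4 : α' i ≤ D := (monomial_le_degreeOf i hα').trans (h i)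
      rwa [min_eq_left h3, min_eq_left h4] at h2
    · rw [if_neg hi, if_neg hi]
  refine h1.trans ?_
  rw [Finset.card_univ, Fintype.card_fun, Fintype.card_fin, Fintype.card_coe]
  exact Nat.pow_le_pow_right (Nat.succ_pos D) hS

theorem totalDegree_le_of_degreeOf {n D : ℕ} {f : MvPolynomial (Fin n) ℂ}
    (h : ∀ l, f.degreeOf l ≤ D) : f.totalDegree ≤ n * D := by
  rw [totalDegree]
  refine Finset.sup_le fun α hα => ?_
  rw [Finsupp.sum_fintype _ _ (fun _ => rfl)]
  calc ∑ i, α i ≤ ∑ _i : Fin n, D :=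
        Finset.sum_le_sum fun i _ => (monomial_le_degreeOf i hα).trans (h i)
    _ = n * D := by rw [Finset.sum_const, Finset.card_univ, Fintype.card_fin, smul_eq_mul]

private theorem h45_lr {n q δ : ℕ} {f : MvPolynomial (Fin n) ℂ} (h : f.totalDegree ≤ δ) :
    LR q ((q + 1) ^ δ) f := by
  classical
  intro S hS
  refine rank_of_restr S ?_
  have h1 : (f.support.image fun α => α.filter (· ∈ S)) ⊆
      (Finset.univ : Finset (Fin δ → Option S)).image h45_wexp := by
    intro θ hθ
    obtain ⟨α, hα, rfl⟩ := Finset.mem_image.1 hθ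
    have hd : (α.filter (· ∈ S)).degree ≤ δ := by
      have h2 : (α.filter (· ∈ S)).degree ≤ α.degree := by
        apply Finsupp.degree_mono
        intro l
        rw [Finsupp.filter_apply]
        split_ifs
        · exact le_rfl
        · exact Nat.zero_le _
      refine h2.trans (le_trans ?_ h)
      exact le_totalDegree hα
    obtain ⟨u, hu⟩ := h45_exists_wexp (S := S) δ _ hd (fun i hi => by
      by_contra hn
      apply hi
      rw [Finsupp.filter_apply, if_neg hn])
    exact Finset.mem_image.2 ⟨u, Finset.mem_univ _, hu⟩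
  refine (Finset.card_le_card h1).trans (Finset.card_image_le.trans ?_)
  rw [Finset.card_univ, Fintype.card_fun, Fintype.card_fin, Fintype.card_option, Fintype.card_coe]
  exact Nat.pow_le_pow_left (Nat.succ_le_succ hS) δ

theorem ao_of_totalDegree {n δ : ℕ} {f : MvPolynomial (Fin n) ℂ} (h : f.totalDegree ≤ δ) :
    AO ((n + 1) ^ δ) f := by
  intro S
  exact h45_lr (q := n) h S (by simpa using Finset.card_le_univ S)

theorem lr_of_totalDegree {n q δ : ℕ} {f : MvPolynomial (Fin n) ℂ} (h : f.totalDegree ≤ δ) :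
    LR q ((q + 1) ^ δ) f := h45_lr h

theorem lr_of_ao {n q w : ℕ} {f : MvPolynomial (Fin n) ℂ} (h : AO w f) : LR q w f := fun S _ => h S

end LRH
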